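import Pool.Agent.N343.AS.Stm

/-!
# Project AS (helper343), part TRA (worker: helper400)
-/

set_option autoImplicit false

open Filter Topology MeasureTheory Finset Pool.Agent.N343.AS

namespace Pool.Agent.N400.AS

noncomputable section

/-- the number of digit terms -/
def nn (N : ℕ) : ℕ := Fintype.card (T N)

/-- the digit terms numbered -/
def cc (N k : ℕ) : ℝ :=
  if h : k < Fintype.card (T N) then cT N ((Fintype.equivFin (T N)).symm ⟨k, h⟩) else 0

/-- the number of a digit term -/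
def ff (N : ℕ) (t : T N) : ℕ := ((Fintype.equivFin (T N) t : Fin (Fintype.card (T N))) : ℕ)

theorem ff_inj (N : ℕ) : Function.Injective (ff N) := fun _ _ h =>
  (Fintype.equivFin (T N)).injective (Fin.ext h)

theorem ff_lt (N : ℕ) (t : T N) : ff N t < Fintype.card (T N) := (Fintype.equivFin (T N) t).2

theorem cc_ff (N : ℕ) (t : T N) : cc N (ff N t) = cT N t := by
  unfold cc
  rw [dif_pos (ff_lt N t)]
  congr 1
  exact (Fintype.equivFin (T N)).symm_apply_apply t

theorem sum_image' (N : ℕ) (S : Finset (T N)) :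
    ∑ k ∈ S.image (ff N), cc N k = ∑ t ∈ S, cT N t := by
  rw [Finset.sum_image (fun a _ b _ h => ff_inj N h)]
  exact Finset.sum_congr rfl (fun t _ => cc_ff N t)

theorem mem_ff (N k : ℕ) (hk : k < nn N) : ∃ t, ff N t = k := by
  refine ⟨(Fintype.equivFin (T N)).symm ⟨k, hk⟩, ?_⟩
  unfold ff
  rw [Equiv.apply_symm_apply]

theorem img_univ (N : ℕ) : (univ : Finset (T N)).image (ff N) = range (nn N) := by
  ext k
  rw [mem_image, mem_range]
  constructor
  · rintro ⟨t, _, rfl⟩
    exact ff_lt N t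
  · intro hk
    obtain ⟨t, ht⟩ := mem_ff N k hk
    exact ⟨t, mem_univ t, ht⟩

theorem E_ge (N : ℕ) : 3 * N + 12 ≤ E (N + 1) := by
  show 3 * N + 12 ≤ 2 * E N + Q N + 3 * N + 12
  omega

theorem E_ge' (N : ℕ) : N ≤ E N := by
  cases N with
  | zero => exact Nat.zero_le _
  | succ n =>
    have := E_ge n
    omega

theorem E_step (N : ℕ) : E N + 2 ≤ E (N + 1) := by
  show E N + 2 ≤ 2 * E N + Q N + 3 * N + 12
  omega

theorem half_anti {a b : ℕ} (h : a ≤ b) : ((1 : ℝ) / 2) ^ b ≤ (1 / 2) ^ a :=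
  pow_le_pow_of_le_one (by norm_num) (by norm_num) h

theorem hyp_ (hT : S_TOT) : Hyp nn cc (fun N => Z (N + 1)) AA := by
  obtain ⟨hpos, htot, hZ⟩ := hT
  refine ⟨fun N k hk => ?_, fun N => ?_, ?_, fun N => ?_, fun N => ?_, ?_, fun N => ?_,
    fun N => ?_⟩
  · obtain ⟨t, rfl⟩ := mem_ff N k hk
    rw [cc_ff]
    exact hpos N t
  · have : Nonempty (T N) := ⟨Sum.inl ⟨⟨0, by omega⟩, ⟨0, by norm_num⟩⟩⟩
    exact Fintype.card_pos
  · have h1 : ∀ N, ∑ k ∈ range (nn N), cc N k ≤ (1 / 2) ^ N := by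
      intro N
      rw [← img_univ, sum_image', htot]
      have h2 : 0 < Z (N + 1) := by
        unfold Z
        positivity
      calc (2 ^ (E (N + 1) - E N) - 2 ^ N) * Z (N + 1)
          ≤ 2 ^ (E (N + 1) - E N) * Z (N + 1) := by
            refine mul_le_mul_of_nonneg_right ?_ h2.le
            have : (0 : ℝ) < 2 ^ N := by positivity
            linarith
        _ = Z N := hZ N
        _ ≤ (1 / 2) ^ N := half_anti (E_ge' N)
    refine Summable.of_nonneg_of_le (fun N => ?_) h1
      (summable_geometric_of_lt_one (by norm_num) (by norm_num))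
    refine sum_nonneg fun k hk => ?_
    obtain ⟨t, rfl⟩ := mem_ff N k (mem_range.1 hk)
    rw [cc_ff]
    exact (hpos N t).le
  · show 0 < Z (N + 1)
    unfold Z
    positivity
  · show 4 * Z (N + 1 + 1) ≤ Z (N + 1)
    unfold Z
    have h1 := half_anti (E_step (N + 1))
    rw [pow_add] at h1
    calc 4 * ((1 : ℝ) / 2) ^ E (N + 1 + 1) ≤ 4 * ((1 / 2) ^ E (N + 1) * (1 / 2) ^ 2) := by linarith
      _ = (1 / 2) ^ E (N + 1) := by ring
  · have h1 : ∀ N : ℕ, (2 : ℝ) ^ N * Z (N + 1) ≤ (1 / 2) ^ N := by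
      intro N
      unfold Z
      have h2 : ((1 : ℝ) / 2) ^ E (N + 1) ≤ (1 / 2) ^ (N + N) := half_anti (by
        have := E_ge N
        omega)
      calc (2 : ℝ) ^ N * (1 / 2) ^ E (N + 1) ≤ 2 ^ N * (1 / 2) ^ (N + N) :=
            mul_le_mul_of_nonneg_left h2 (by positivity)
        _ = (2 * (1 / 2)) ^ N * (1 / 2) ^ N := by rw [pow_add, mul_pow]; ring
        _ = (1 / 2) ^ N := by norm_num
    refine Summable.of_nonneg_of_le (fun N => ?_) h1
      (summable_geometric_of_lt_one (by norm_num) (by norm_num))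
    unfold Z
    positivity
  · show Z (N + 1) ≤ (1 / 2) ^ N
    exact half_anti (by
      have := E_ge N
      omega)
  · show 1 ≤ (AA N : ℝ) * Z (N + 1)
    unfold AA Z
    push_cast
    have h1 : ((N : ℝ) + 1) * 2 ^ E (N + 1) * (1 / 2) ^ E (N + 1) = N + 1 := by
      rw [mul_assoc, ← mul_pow]
      norm_num
    rw [h1]
    have : (0 : ℝ) ≤ N := Nat.cast_nonneg N
    linarith

theorem main (hT : S_TOT) : S_TRA := by
  refine ⟨nn, cc, hyp_ hT, fun p => ⟨?_, ?_⟩⟩
  · rintro ⟨S, j, hS, hj, h1, h2⟩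
    have hex : ∀ N, ∃ S' : Finset (T N), S'.image (ff N) = S N := by
      intro N
      refine ⟨univ.filter (fun t => ff N t ∈ S N), ?_⟩
      ext k
      rw [mem_image]
      constructor
      · rintro ⟨t, ht, rfl⟩
        exact (mem_filter.1 ht).2
      · intro hk
        obtain ⟨t, rfl⟩ := mem_ff N k (mem_range.1 (hS N hk))
        exact ⟨t, mem_filter.2 ⟨mem_univ t, hk⟩, rfl⟩
    choose S' hS' using hex
    refine ⟨S', j, hj, ?_, h2⟩
    have h3 : (fun K => ∑ N ∈ range K, (∑ t ∈ S' N, cT N t + (j N : ℝ) * Z (N + 1))) =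
        fun K => ∑ N ∈ range K, (∑ k ∈ S N, cc N k + (j N : ℝ) * Z (N + 1)) := by
      funext K
      refine Finset.sum_congr rfl fun N _ => ?_
      rw [← hS' N, sum_image']
    rw [h3]
    exact h1
  · rintro ⟨S, j, hj, h1, h2⟩
    refine ⟨fun N => (S N).image (ff N), j, fun N => ?_, hj, ?_, h2⟩
    · rw [← img_univ]
      exact image_subset_image (subset_univ _)
    · have h3 : (fun K => ∑ N ∈ range K, (∑ k ∈ (S N).image (ff N), cc N k +
          (j N : ℝ) * Z (N + 1))) =
          fun K => ∑ N ∈ range K, (∑ t ∈ S N, cT N t + (j N : ℝ) * Z (N + 1)) := by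
        funext K
        refine Finset.sum_congr rfl fun N _ => ?_
        rw [sum_image']
      exact (congrArg (fun f => Tendsto f atTop (𝓝 p.1)) h3).mpr h1

end

end Pool.Agent.N400.AS
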